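import Mathlib
import Pool.Agent.H.MP_9b64ae_co.A

namespace Pool.Agent.Results.MP_9b64ae_co.NotRich

open Pool.Agent.H.MP_9b64ae_co

/-- The factor of length `n` of `u` starting at position `i`. -/
def fac (u : ℕ → ZMod 2) (i n : ℕ) : List (ZMod 2) := (List.range n).map fun j => u (i + j)

/-- The sum-mod-2 map. -/
def S (u : ℕ → ZMod 2) (i : ℕ) : ZMod 2 := u i + u (i + 1)

lemma iter (k : ℕ) : ∀ (u v : ℕ → ZMod 2) (n : ℕ), (∀ i < n + k, u i = v i) →
    ∀ i < n, S^[k] u i = S^[k] v i := by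
  induction k with
  | zero => exact fun u v n h => h
  | succ k ih =>
    intro u v n h
    refine ih (S u) (S v) n fun i hi => ?_
    unfold S
    rw [h i (by omega), h (i + 1) (by omega)]

theorem result : ∃ u : ℕ → ZMod 2,
    (∀ n, {w | ∃ i, fac u i n = w}.ncard = n + 1) ∧
    ∃ k, 1 ≤ k ∧ ∃ i n,
      {p | p <:+: fac (S^[k] u) i n ∧ p.reverse = p}.ncard < n + 1 := by
  obtain ⟨α, hα, h1, h2⟩ := exists_irrational_btwn (show (5 / 12 : ℝ) < 5 / 12 + 1 / 400 by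
    norm_num)
  refine ⟨mech α (1 / 8), sturm hα _, 6, by norm_num, 0, 9, ?_⟩
  have hf : ∀ n : ℕ, n ≤ 15 → ⌊n * α + 1 / 8⌋ = ((5 * n + 1) / 12 : ℕ) := by
    intro n hn
    rw [Int.floor_eq_iff]
    interval_cases n <;> norm_num <;> constructor <;> linarith
  have hu : ∀ i < 9 + 6, mech α (1 / 8) i =
      (fun i : ℕ => ((((5 * (i + 1) + 1) / 12 : ℕ) - ((5 * i + 1) / 12 : ℕ) : ℤ) : ZMod 2)) i := by
    intro i hi
    unfold mech
    rw [hf _ hi, hf _ (by omega)]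
  have hw : fac (S^[6] (mech α (1 / 8))) 0 9 = [1, 0, 1, 1, 0, 0, 1, 0, 1] := by
    unfold fac
    rw [List.map_congr_left fun j hj => iter 6 _ _ 9 hu (0 + j) (by simpa using hj)]
    decide +kernel
  rw [hw]
  refine lt_of_le_of_lt (Set.ncard_le_ncard (t := (({[], [0], [1], [0, 0], [1, 1], [0, 1, 0],
    [1, 0, 1], [0, 1, 1, 0], [1, 0, 0, 1]} : Finset (List (ZMod 2))) : Set _)) ?_
    (Finset.finite_toSet _)) ?_
  · rintro p ⟨hp, hr⟩
    have : ∀ p ∈ ([1, 0, 1, 1, 0, 0, 1, 0, 1] : List (ZMod 2)).sublists, p <:+: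
        [1, 0, 1, 1, 0, 0, 1, 0, 1] → p.reverse = p → p ∈ ({[], [0], [1], [0, 0], [1, 1],
          [0, 1, 0], [1, 0, 1], [0, 1, 1, 0], [1, 0, 0, 1]} : Finset (List (ZMod 2))) := by
      decide +kernel
    exact this p (List.mem_sublists.2 hp.sublist) hp hr
  · rw [Set.ncard_coe_finset]
    decide +kernel

end Pool.Agent.Results.MP_9b64ae_co.NotRich
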